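import Pool.Agent.H37.CNL.Stmts
import Pool.Agent.H66.CNK.PCZ

/-!
# Board cnl (MP_b57703), row VCZ

As row `PCZ` of the board `cnk` (helper66), whose combinatorial lemmas are used.
-/

set_option autoImplicit false

namespace Pool.CND

open Finset

theorem vcz_thm (hHIN : S_VIN) (hITG : S_VTG) (hQSM : S_VSM) (hLPO : S_VPO) (hPCQ : S_PCQ)
    (hBAS : S_VAS) : S_VCZ := by
  intro p k L G _ _ _ _ _ _ ρ t P Δ l hP hp2 hcen hl
  have hp := hP.pr
  obtain ⟨-, -, -, hUM, -⟩ := hBAS p k L G ρ t P Δ hP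
  obtain ⟨v, -, hv1, hvl⟩ := hl.mem
  have hmax : ∀ g : G, g ≠ 1 → P.b (ρ g) ≤ l := fun g hg => hl.le g (Subgroup.mem_top _) hg
  have hvp : v ^ p = 1 := by
    by_contra h1
    rcases hLPO p k L G ρ t P Δ hP v hv1 with h2 | h2
    · exact h1 h2
    · have h3 := hmax _ h1
      exact absurd (h3.trans hvl.symm.le) (not_le.2 h2)
  obtain ⟨M, hMn, hMp, hvM, hMi⟩ := hPCQ p G v hp hp2 hP.cd hcen hvp hv1
  obtain ⟨E, ρ', t', Q, Δ', -, -, -, -, hQ, -, hsum⟩ := hQSM p k L G ρ t P Δ M hP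
  let _ : Fintype (G ⧸ M) := Fintype.ofFinite _
  obtain ⟨-, -, -, hUM', -⟩ := hBAS p k E (G ⧸ M) ρ' t' Q Δ' hQ
  have hvz : (v : G ⧸ M) ≠ 1 := fun h => hvM ((QuotientGroup.eq_one_iff v).1 h)
  have hoz : orderOf (v : G ⧸ M) = p := by
    have : Fact p.Prime := ⟨hp⟩
    refine orderOf_eq_prime ?_ hvz
    rw [← QuotientGroup.mk_pow, hvp]
    rfl
  have hzc : ∀ g : G ⧸ M, g * (v : G ⧸ M) = (v : G ⧸ M) * g := by
    intro g
    obtain ⟨g, rfl⟩ := QuotientGroup.mk_surjective g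
    rw [← QuotientGroup.mk_mul, ← QuotientGroup.mk_mul, Subgroup.mem_center_iff.1 (hcen v hvp) g]
  -- the subgroup of elements of order dividing p
  let Ω : Subgroup G :=
    { carrier := {x | x ^ p = 1}
      one_mem' := one_pow p
      mul_mem' := fun {a b} ha hb => by
        have h1 : Commute a b := (Subgroup.mem_center_iff.1 (hcen b hb) a)
        change (a * b) ^ p = 1
        rw [h1.mul_pow, ha, hb, one_mul]
      inv_mem' := fun {a} ha => by
        change (a⁻¹) ^ p = 1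
        rw [inv_pow, ha, inv_one] }
  have hΩ : ∀ x : G, x ∈ Ω ↔ x ^ p = 1 := fun x => Iff.rfl
  have hH := hHIN p k L G ρ t P Δ Ω l hP hp2 hcen hΩ hl
  have hΩz : ∀ x : G, x ∈ Ω ↔ (x : G ⧸ M) ∈ Subgroup.zpowers (v : G ⧸ M) := by
    intro x
    constructor
    · intro hx
      obtain ⟨i, hi⟩ := hMi x hx
      have h2 : (x : G ⧸ M) * (v : G ⧸ M) ^ i = 1 := by
        rw [← QuotientGroup.mk_pow, ← QuotientGroup.mk_mul]
        exact (QuotientGroup.eq_one_iff _).2 hi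
      rw [eq_inv_of_mul_eq_one_left h2]
      exact inv_mem (pow_mem (Subgroup.mem_zpowers _) i)
    · intro hx
      obtain ⟨i, hi⟩ := Subgroup.mem_zpowers_iff.1 hx
      have h2 : (v ^ i)⁻¹ * x ∈ M := by
        rw [← QuotientGroup.eq, QuotientGroup.mk_zpow]
        exact hi
      have h3 : x = v ^ i * ((v ^ i)⁻¹ * x) := by group
      rw [h3]
      exact Ω.mul_mem (Ω.zpow_mem hvp i) (hMp _ h2)
  have hfib := pcz_fib M (fun g => P.b (ρ g)) (fun q => Q.b (ρ' q)) hsum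
  have h3 : So P ρ Ω = Nat.card M * So Q ρ' (Subgroup.zpowers (v : G ⧸ M)) := by
    rw [So, So, ← hfib {g | g ∉ Subgroup.zpowers (v : G ⧸ M)} (fun h => h (one_mem _))]
    congr 1
    ext x
    simp only [Set.mem_ofPred_eq]
    rw [hΩz]
  have h4 : sm (fun g => P.b (ρ g)) {g | g ∉ M} =
      Nat.card M * (((p : ℤ) - 1) * Q.b (ρ' (v : G ⧸ M)) +
        So Q ρ' (Subgroup.zpowers (v : G ⧸ M))) := by
    have h5 := pcz_cyc hUM' hp hoz
    rw [So, ← h5, ← hfib {q | q ≠ 1} (fun h => h rfl)]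
    congr 1
    ext x
    simp only [Set.mem_ofPred_eq, ne_eq]
    rw [QuotientGroup.eq_one_iff]
  have h5 : l + So P ρ ⊥ = Nat.card M * (p * Q.b (ρ' (v : G ⧸ M)) +
      So Q ρ' (Subgroup.zpowers (v : G ⧸ M))) := by
    have h6 := pcz_top hUM M hvM hvl hmax
    rw [hsum v hvM] at h6
    rw [So, pcz_split _ M, h4, ← add_assoc, ← h6]
    ring
  have hM0 : (0 : ℤ) < Nat.card M := by exact_mod_cast Nat.card_pos
  have h6 : ((p : ℤ) - 1) * So Q ρ' (Subgroup.zpowers (v : G ⧸ M)) ≤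
      p * Q.b (ρ' (v : G ⧸ M)) := by
    rw [h5, h3] at hH
    have h7 : (Nat.card M : ℤ) * (p * So Q ρ' (Subgroup.zpowers (v : G ⧸ M))) ≤
        Nat.card M * (p * Q.b (ρ' (v : G ⧸ M)) + So Q ρ' (Subgroup.zpowers (v : G ⧸ M))) := by
      calc (Nat.card M : ℤ) * (p * So Q ρ' (Subgroup.zpowers (v : G ⧸ M)))
          = p * (Nat.card M * So Q ρ' (Subgroup.zpowers (v : G ⧸ M))) := by ring
        _ ≤ _ := hH
    have h8 := le_of_mul_le_mul_left h7 hM0
    linarith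
  obtain ⟨n, hn⟩ := hITG p k E (G ⧸ M) ρ' t' Q Δ' (v : G ⧸ M) hQ hp2 hoz hzc h6
  refine ⟨n, ?_⟩
  have hcard : Nat.card G = Nat.card (G ⧸ M) * Nat.card M :=
    Subgroup.card_eq_card_quotient_mul_card_subgroup M
  rw [h5, ← hn, hcard]
  push_cast
  ring

end Pool.CND
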