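import Pool.Agent.H37.CNL.Stmts

/-!
# Board cnl (MP_b57703), row VML

The equation of `Y` (as row `YML` of the board `cnk`).
-/

set_option autoImplicit false

namespace Pool.CND

open Finset

theorem vml_fp_pow {p : ℕ} (hp : p.Prime) (k : Type) [Field k] [CharP k p] (a : ZMod p) :
    (fp k a) ^ p = fp k a := by
  have : Fact p.Prime := ⟨hp⟩
  unfold fp
  rw [← map_pow, ZMod.pow_card]

theorem vml_map_wc (p : ℕ) {k L : Type} [Field k] [Field L] [Algebra k L] (g : L ≃ₐ[k] L)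
    (a b : L) : g (wc p a b) = wc p (g a) (g b) := by
  unfold wc
  rw [map_neg, map_sum]
  congr 1
  refine sum_congr rfl fun i _ => ?_
  rw [map_mul, map_mul, map_pow, map_pow, map_natCast]

theorem vml_thm (h1 : S_VQQ) (h2 : S_VDG) (h3 : S_WCA) : S_VML := by
  intro p d k L G _ _ _ _ _ _ _ ρ t P Δ z x N C₁ n y u hM hY
  have hp : p.Prime := hM.cv.pr
  have : Fact p.Prime := ⟨hp⟩
  have : CharP L p := charP_of_injective_algebraMap (algebraMap k L).injective p
  obtain ⟨Y₀, B, hz, hB, hn⟩ := h1 p d k L G ρ t P Δ z x N C₁ n y u hM hY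
  obtain ⟨f, hf⟩ : ∃ f : Fin (d + 1) → Fin (d + 1) → L, ∀ i j,
      algebraMap k L (fp k (B i j)) = f i j := ⟨_, fun i j => rfl⟩
  have hfp : ∀ i j, f i j ^ p = f i j := by
    intro i j
    rw [← hf, ← map_pow, vml_fp_pow hp]
  have hρf : ∀ (g : G) (i j), ρ g (f i j) = f i j := by
    intro g i j
    rw [← hf, AlgEquiv.commutes]
  obtain ⟨τ, hτd⟩ : ∃ τ : Fin (d + 1) → L, ∀ j, (y j) ^ p - y j = τ j := ⟨_, fun j => rfl⟩
  have hyadd : ∀ (a e : L), e ^ p = e → (a + e) ^ p - (a + e) = a ^ p - a := by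
    intro a e he
    rw [add_pow_char, he]
    ring
  have hδ : ∀ l j : Fin (d + 1), (if l = j then (1 : L) else 0) ^ p =
      if l = j then (1 : L) else 0 := by
    intro l j
    split_ifs
    · exact one_pow p
    · exact zero_pow hp.ne_zero
  have hτ : ∀ l j, ρ (n l) (τ j) = τ j := by
    intro l j
    rw [← hτd, map_sub, map_pow, hY.ny, hyadd _ _ (hδ l j)]
  have hτz : ∀ j, ρ z (τ j) = τ j := by
    intro j
    rw [← hτd, map_sub, map_pow, hY.zy]
  obtain ⟨S, hS⟩ : ∃ S : L, ∑ i, ∑ j, f i j * (y i * τ j) = S := ⟨_, rfl⟩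
  have hSz : ρ z S = S := by
    rw [← hS, map_sum]
    refine sum_congr rfl fun i _ => ?_
    rw [map_sum]
    refine sum_congr rfl fun j _ => ?_
    rw [map_mul, map_mul, hρf, hY.zy, hτz]
  have hSn : ∀ l, ρ (n l) S = S + ∑ j, f l j * τ j := by
    intro l
    rw [← hS, map_sum]
    have h4 : ∀ i : Fin (d + 1), ρ (n l) (∑ j, f i j * (y i * τ j)) =
        ∑ j, f i j * (y i * τ j) + if l = i then ∑ j, f i j * τ j else 0 := by
      intro i
      rw [map_sum]
      have h5 : ∀ j, ρ (n l) (f i j * (y i * τ j)) =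
          f i j * (y i * τ j) + (if l = i then (1 : L) else 0) * (f i j * τ j) := by
        intro j
        rw [map_mul, map_mul, hρf, hY.ny, hτ]
        ring
      rw [sum_congr rfl fun j _ => h5 j, sum_add_distrib, ← mul_sum]
      congr 1
      split_ifs
      · rw [one_mul]
      · rw [zero_mul]
    rw [sum_congr rfl fun i _ => h4 i, sum_add_distrib, sum_ite_eq, if_pos (mem_univ l)]
  obtain ⟨g₀, hg₀⟩ : ∃ g₀ : L, Y₀ ^ p - Y₀ - wc p (y 0) (τ 0) - S = g₀ := ⟨_, rfl⟩
  have hgz : ρ z g₀ = g₀ := by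
    rw [← hg₀, map_sub, map_sub, map_sub, map_pow, hz, hSz, vml_map_wc, hY.zy, hτz,
      hyadd _ _ (one_pow p)]
  obtain ⟨H3, -, -⟩ := h3 p L hp
  have hgn : ∀ l, ρ (n l) g₀ = g₀ := by
    intro l
    have h6 : ρ (n l) Y₀ = Y₀ + ((if l = 0 then wc p (y 0) 1 else 0) + ∑ j, f l j * y j) := by
      rw [hn l, add_assoc]
      congr 2
      refine sum_congr rfl fun j _ => ?_
      rw [hf]
    have h7 : (∑ j, f l j * y j) ^ p = ∑ j, f l j * (y j) ^ p := by
      rw [sum_pow_char]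
      refine sum_congr rfl fun j _ => ?_
      rw [mul_pow, hfp]
    have h8 : ∑ j, f l j * τ j = (∑ j, f l j * (y j) ^ p) - ∑ j, f l j * y j := by
      rw [← sum_sub_distrib]
      refine sum_congr rfl fun j _ => ?_
      rw [← hτd]
      ring
    rw [← hg₀, map_sub, map_sub, map_sub, map_pow, h6, hSn, vml_map_wc, hY.ny, hτ,
      add_pow_char, add_pow_char, h7, h8]
    by_cases hl : l = 0
    · rw [if_pos hl, if_pos hl]
      have h9 := H3 (y 0)
      rw [hτd] at h9
      linear_combination -h9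
    · rw [if_neg hl, if_neg hl, zero_pow hp.ne_zero, add_zero]
      ring
  have hgN := hY.gen g₀ hgz hgn
  obtain ⟨w, hwN, hw⟩ := h2 p k L G ρ t P Δ N g₀ hM.cv hgN
  refine ⟨Y₀ - w, g₀ - (w ^ p - w), B, ?_, ?_, ?_, hw⟩
  · rw [map_sub, hz, hwN z hM.zN]
    ring
  · intro a ha
    rw [map_sub, map_sub, map_pow, hgN a ha, hwN a ha]
  · have h10 : ∑ i, ∑ j, algebraMap k L (fp k (B i j)) * (y i * ((y j) ^ p - y j)) = S := by
      rw [← hS]
      refine sum_congr rfl fun i _ => sum_congr rfl fun j _ => ?_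
      rw [hf, hτd]
    rw [h10, hτd, sub_pow_char, ← hg₀]
    ring

end Pool.CND
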